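import Pool.Agent.Helper22.TW.Stmts

/-!
# Module DENS: embeddings with dense image in a finite extension of `ℚ_p`
-/

set_option autoImplicit false

namespace Pool.Agent.Helper22.TW

open Pool.Agent.Helper14.BSC Polynomial

theorem dens_padic {F : Type} [Field F] [CharZero F] {p : ℕ} [Fact p.Prime] (σ : F →+* ℂ_[p])
    (x : ℚ_[p]) : algebraMap ℚ_[p] ℂ_[p] x ∈ σ.fieldRange.topologicalClosure := by
  change algebraMap ℚ_[p] ℂ_[p] x ∈ closure (σ.fieldRange : Set ℂ_[p])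
  rw [Metric.mem_closure_iff]
  intro ε hε
  obtain ⟨r, hr⟩ := Padic.rat_dense p x hε
  refine ⟨(r : ℂ_[p]), ⟨(r : F), map_ratCast σ r⟩, ?_⟩
  have h1 : (r : ℂ_[p]) = algebraMap ℚ_[p] ℂ_[p] (r : ℚ_[p]) := (map_ratCast _ r).symm
  rw [dist_eq_norm, h1, ← map_sub, norm_algebraMap']
  exact hr

theorem st_DENS (hE : ST_EMB) : ST_DENS := by
  intro F _ _ hF p _
  obtain ⟨σ, E', hfin, hE'⟩ := hE F hF p
  obtain ⟨E, hEdef⟩ : ∃ E : IntermediateField ℚ_[p] ℂ_[p],
      E = σ.fieldRange.topologicalClosure.toIntermediateField (dens_padic σ) := ⟨_, rfl⟩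
  have hmem : ∀ z, z ∈ E ↔ z ∈ closure (σ.fieldRange : Set ℂ_[p]) := by
    intro z
    rw [hEdef]
    exact Iff.rfl
  have hcl : IsClosed (E' : Set ℂ_[p]) := by
    have : FiniteDimensional ℚ_[p] E'.toSubalgebra.toSubmodule := hfin
    exact Submodule.closed_of_finiteDimensional E'.toSubalgebra.toSubmodule
  have hle : E ≤ E' := by
    intro z hz
    rw [hmem] at hz
    have h1 : (σ.fieldRange : Set ℂ_[p]) ⊆ (E' : Set ℂ_[p]) := by
      rintro _ ⟨a, rfl⟩
      exact hE' a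
    exact closure_minimal h1 hcl hz
  refine ⟨σ, E, ?_, ?_, ?_⟩
  · have h2 : FiniteDimensional ℚ_[p] E'.toSubalgebra.toSubmodule := hfin
    have h3 : E.toSubalgebra.toSubmodule ≤ E'.toSubalgebra.toSubmodule := hle
    exact Submodule.finiteDimensional_of_le h3
  · intro x
    rw [hmem]
    exact subset_closure ⟨x, rfl⟩
  · intro z hz δ hδ
    rw [hmem, Metric.mem_closure_iff] at hz
    obtain ⟨_, ⟨a, rfl⟩, ha⟩ := hz δ hδ
    refine ⟨a, ?_⟩
    rw [dist_comm, dist_eq_norm] at ha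
    exact ha

end Pool.Agent.Helper22.TW
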